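import Pool.Agent.H1.C21

set_option autoImplicit false

namespace Pool.Agent.Results.MP_9e03a6_co.Mirror

open Pool.Agent.H1.C21

/-- A geometric `(21_4)` configuration with a non-trivial symmetry and no polycyclic realization. -/
theorem result : ∃ I : Fin 21 → Fin 21 → Prop, IsConfig 21 4 I ∧
    (∃ p L, Realizes I p L ∧ ∃ g : E ≃ᵢ E, Preserves p L g ∧ ∃ x, g x ≠ x) ∧
    ∀ p L, Realizes I p L → ¬ Polycyclic p L :=
  ⟨I, config, real, notPoly⟩

end Pool.Agent.Results.MP_9e03a6_co.Mirror
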